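import Pool.Agent.TH93.LN.Fin

/-!
# How many strings of a random oracle have to be changed for the collapse of `DLBA`, `LBA`, `E`, `NE`?

An adversary who knows the random oracle `O` changes, for all large `n`, at most `g n` of the
strings of length at most `n`; the result is the oracle `A`. `InNTime Lin A` is the class `NE`
relative to `A`. Let `C₁` and `C₂` be relativized classes of languages, such that `C₁` contains the
languages decided by one random question of linear length (`OneQ`), and the languages in `C₂` are
given by some functional from a list `Ψ` which gets the strings of linear length in the oracle and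
`2 ^ n / (n + 1)` bits of advice (`LocalTo Ψ`). For instance each of `C₁` and `C₂` is `DLBA` or
`LBA`, where the questions have linear length.

* If, for every `ε > 0`, `g n ≤ 2 ^ (ε n)` for infinitely many `n`, then for almost every `O` and
  for all these `A`, `P` (so `E`) is not contained in `C₂`.
* Otherwise every oracle `O` can be changed such that `NE` is contained in `C₁`.
-/

set_option autoImplicit false

namespace Pool.Agent.Results.MP_b7da94_lc.ChangedStrings

open Pool.Agent.NPC Pool.Agent.H620R2.Gauge Pool.Agent.H622R2.Exp Pool.Agent.TH93.LN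
open Pool.Agent.H628R3.RO (randomOracle)
open Pool.Agent.W900.CH (Close)
open MeasureTheory

theorem result (g : ℕ → ℝ) (Ψ : ℕ → Oracle → List Bool → Prop)
    (C₁ C₂ : Oracle → Set (List Bool) → Prop) (h₁ : ∀ A L, OneQ A L → C₁ A L)
    (h₂ : ∀ A L, C₂ A L → LocalTo Ψ A L) :
    ((∀ ε : ℝ, 0 < ε → ∃ᶠ n : ℕ in Filter.atTop, g n ≤ 2 ^ (ε * (n : ℝ))) →
      ∀ᵐ O ∂randomOracle, ∀ A : Oracle, Close g O A → ∃ L, IsP A L ∧ ¬ C₂ A L) ∧
    ((¬ ∀ ε : ℝ, 0 < ε → ∃ᶠ n : ℕ in Filter.atTop, g n ≤ 2 ^ (ε * (n : ℝ))) →
      ∀ O : Oracle, ∃ A : Oracle, Close g O A ∧ ∀ L, InNTime Lin A L → C₁ A L) :=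
  chainChanged g Ψ C₁ C₂ h₁ h₂

end Pool.Agent.Results.MP_b7da94_lc.ChangedStrings
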